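import Pool.Agent.helper66.LIN.Spec

set_option autoImplicit false

/-!
# Project lin, row LST: the number of lost points
-/

namespace LSH.Lin

theorem LST : LST_stmt := by
  classical
  intro P L σ X u t up x₁ q hcfg hmem hch
  have hsub : P.filter (fun p => σ p.2 < p.1 ∧ p.1 ≤ x₁ ∧ Vis L u p.2) ⊆
      avs P L σ u up x₁ ∪ avs P L σ u (!up) x₁ := by
    intro p hp
    obtain ⟨hpP, h1, h2, h3⟩ := Finset.mem_filter.mp hp
    have hne : p.2 ≠ u.2 := by
      intro h
      have hpu : p = u := by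
        by_contra hpu
        exact (hcfg.gen p hpP u (hcfg.mem _ hmem) hpu).2 h
      have h4 : σ u.2 = u.1 := hcfg.live _ hmem
      rw [hpu, h4] at h1
      exact lt_irrefl _ h1
    rcases lt_or_gt_of_ne hne with h | h
    · cases up
      · exact Finset.mem_union_left _ (Finset.mem_filter.mpr
          ⟨hpP, h1, h2, h3, Or.inr ⟨rfl, h⟩⟩)
      · exact Finset.mem_union_right _ (Finset.mem_filter.mpr
          ⟨hpP, h1, h2, h3, Or.inr ⟨rfl, h⟩⟩)
    · cases up
      · exact Finset.mem_union_right _ (Finset.mem_filter.mpr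
          ⟨hpP, h1, h2, h3, Or.inl ⟨rfl, h⟩⟩)
      · exact Finset.mem_union_left _ (Finset.mem_filter.mpr
          ⟨hpP, h1, h2, h3, Or.inl ⟨rfl, h⟩⟩)
  have h1 : ((avs P L σ u up x₁).erase q).card < t.mm := hch.small _ hmem up
  have h2 : ((avs P L σ u (!up) x₁).erase q).card < t.mm := hch.small _ hmem (!up)
  have h3 : (avs P L σ u up x₁).card = ((avs P L σ u up x₁).erase q).card + 1 :=
    (Finset.card_erase_add_one hch.hq).symm
  have hq' : q ∉ avs P L σ u (!up) x₁ := by
    intro h
    obtain ⟨_, _, _, _, h5⟩ := Finset.mem_filter.mp h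
    obtain ⟨_, _, _, _, h6⟩ := Finset.mem_filter.mp hch.hq
    rcases h5 with ⟨a, b⟩ | ⟨a, b⟩
    · rcases h6 with ⟨c, d⟩ | ⟨c, d⟩
      · rw [c] at a
        exact Bool.noConfusion a
      · exact lt_asymm b d
    · rcases h6 with ⟨c, d⟩ | ⟨c, d⟩
      · exact lt_asymm b d
      · rw [c] at a
        exact Bool.noConfusion a
  rw [Finset.erase_eq_of_notMem hq'] at h2
  have h4 := (Finset.card_le_card hsub).trans (Finset.card_union_le _ _)
  omega

end LSH.Lin
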